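import Pool.Agent.H585Z.LF.L1Quot

set_option autoImplicit false

namespace Pool.Agent.Results.MP_f48d3d_an.AInfDimL1

open Pool.Agent.H585Z.LF

/-- For every infinite-dimensional real normed space `E`, the space `Lip₀(E)` maps onto `ℓ₁` by a
bounded linear operator with a bounded linear right inverse. -/
theorem result (E : Type) [NormedAddCommGroup E] [NormedSpace ℝ E]
    (hE : ¬ FiniteDimensional ℝ E) :
    ComplementedIn (lp (fun _ : ℕ => ℝ) 1) (Lip0 (0 : E)) :=
  l1_complemented hE

end Pool.Agent.Results.MP_f48d3d_an.AInfDimL1
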